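import Pool.Agent.Helper12.NK.St

set_option autoImplicit false

namespace Pool.Agent.Helper6.NK

open Pool.Agent.Helper12.NK
open Pool.Agent.Helper51.AJ (IsMinor Planar Apex ExMinor Con Tch)
open Pool.Agent.Helper35.PM (Rot)
open Equiv Equiv.Perm

section

variable {V : Type} (G : SimpleGraph V) (U : Set V) (w : V)

/-- the inclusion of the darts -/
private def inc (d : (rst G (U \ {w})).Dart) : (rst G U).Dart :=
  ⟨(d.fst, d.snd), ⟨d.adj.1, d.adj.2.1.1, d.adj.2.2.1⟩⟩

private theorem inc_fst (d : (rst G (U \ {w})).Dart) : (inc G U w d).fst = d.fst := rfl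

private theorem inc_snd (d : (rst G (U \ {w})).Dart) : (inc G U w d).snd = d.snd := rfl

private theorem inc_symm (d : (rst G (U \ {w})).Dart) :
    (inc G U w d).symm = inc G U w d.symm := rfl

private theorem inc_inj : Function.Injective (inc G U w) := by
  intro d d' h
  apply SimpleGraph.Dart.ext
  have h1 := congrArg SimpleGraph.Dart.toProd h
  exact h1

private theorem mem_inc {e : (rst G U).Dart} (h1 : e.fst ≠ w) (h2 : e.snd ≠ w) :
    ∃ x, inc G U w x = e :=
  ⟨⟨(e.fst, e.snd), ⟨e.adj.1, ⟨e.adj.2.1, h1⟩, ⟨e.adj.2.2, h2⟩⟩⟩, rfl⟩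

private theorem ne_inc {e : (rst G U).Dart} (h : e.snd = w) : e ∉ Set.range (inc G U w) := by
  rintro ⟨x, hx⟩
  have h1 : x.snd = w := by
    rw [← inc_snd, hx, h]
  exact x.adj.2.2.2 h1

private theorem cast_ne {m a b : ℕ} (ha : a < m) (hb : b < m) (h : a ≠ b) :
    (a : ZMod m) ≠ (b : ZMod m) := by
  intro h1
  rw [ZMod.natCast_eq_natCast_iff', Nat.mod_eq_of_lt ha, Nat.mod_eq_of_lt hb] at h1
  exact h h1

end

theorem hRDN : StKCA → StFCY → StRDN := by
  intro hKCA hFCY V _ G U w R hK hw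
  classical
  have hV : Fintype V := Fintype.ofFinite V
  obtain ⟨K1, K2, K3, -⟩ := hKCA V G U
  have hK2 : Kc 2 G U := K1 2 hK
  obtain ⟨R', -, hφ, hk⟩ := R.map.exists_rot (G := rst G (U \ {w})) (fun x : V => x)
    Function.injective_id (inc G U w) (inc_inj G U w) (fun d => rfl) (fun d => rfl)
  have hφ' : ∀ d d', R.φ (inc G U w d) = inc G U w d' → R'.φ d = d' := hφ
  have hk' : ∀ d, ∃ k : ℕ, inc G U w (R'.r d) = (R.r ^ (k + 1)) (inc G U w d) ∧
      ∀ j < k, (R.r ^ (j + 1)) (inc G U w d) ∉ Set.range (inc G U w) := hk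
  -- the dart after `(b, w)`
  have hex : ∀ δ : (rst G U).Dart, δ.fst = w → ∃ x, inc G U w x = R.r δ.symm := by
    intro δ hδ
    have h1 : (R.r δ.symm).fst = δ.snd := R.fst_r δ.symm
    refine mem_inc G U w ?_ ?_
    · rw [h1]
      intro h
      exact (rst G U).ne_of_adj δ.adj (hδ.trans h.symm)
    · intro h2
      have h3 : R.r δ.symm = δ.symm := by
        apply SimpleGraph.Dart.ext
        apply Prod.ext
        · exact h1
        · show (R.r δ.symm).snd = δ.fst
          rw [h2, hδ]
      have h4 : ∀ e : (rst G U).Dart, e.fst = δ.snd → e = δ.symm := by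
        intro e he
        obtain ⟨n, hn⟩ := (R.trans δ.symm e he.symm).exists_nat_pow_eq
        rw [← hn]
        clear hn
        induction n with
        | zero => rfl
        | succ n ih => rw [pow_succ', Perm.mul_apply, ih, h3]
      have h5 := K3 3 hK δ.snd δ.adj.2.2
      have h6 : {b | b ∈ U ∧ G.Adj δ.snd b} ⊆ {w} := by
        rintro b ⟨hb1, hb2⟩
        have h7 := h4 ⟨(δ.snd, b), ⟨hb2, δ.adj.2.2, hb1⟩⟩ rfl
        have h8 := congrArg (fun d : (rst G U).Dart => d.snd) h7
        have h9 : b = δ.fst := h8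
        rw [Set.mem_singleton_iff, h9, hδ]
      have h7 := Set.ncard_le_ncard h6 (Set.finite_singleton w)
      rw [Set.ncard_singleton] at h7
      omega
  -- one step
  have step : ∀ δ : (rst G U).Dart, δ.fst = w → ∀ x y, inc G U w x = R.r δ.symm →
      inc G U w y = R.r (R.r δ).symm → R'.φ.SameCycle y x := by
    intro δ hδ x y hx hy
    obtain ⟨⟨m, c, ⟨hm, hinj, hF⟩, -, h01⟩, -⟩ := hFCY V G U R hK2 δ.symm
    have h01' : (c 0, c 1) = (δ.snd, δ.fst) := h01
    have hc0 : c 0 = δ.snd := congrArg Prod.fst h01'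
    have hc1 : c 1 = w := (congrArg Prod.snd h01').trans hδ
    have he : ∀ j : ZMod m, ∃ e : (rst G U).Dart, e.toProd = (c j, c (j + 1)) := by
      intro j
      obtain ⟨e1, e2, h1, -, -⟩ := hF j
      exact ⟨e1, h1⟩
    choose e he using he
    have hφe : ∀ j, R.φ (e j) = e (j + 1) := by
      intro j
      obtain ⟨e1, e2, h1, h2, h3⟩ := hF j
      have a1 : e1 = e j := SimpleGraph.Dart.ext _ _ (h1.trans (he j).symm)
      have a2 : e2 = e (j + 1) := SimpleGraph.Dart.ext _ _ (h2.trans (he (j + 1)).symm)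
      rw [← a1, ← a2, h3]
    have he0 : e 0 = δ.symm := by
      apply SimpleGraph.Dart.ext
      rw [he, zero_add, ← h01]
    have he1 : e 1 = R.r δ := by
      have h1 := hφe 0
      rw [he0, R.φ_apply, SimpleGraph.Dart.symm_symm, zero_add] at h1
      exact h1.symm
    have he2 : e (1 + 1) = R.r (R.r δ).symm := by
      have h1 := hφe 1
      rw [he1, R.φ_apply] at h1
      exact h1.symm
    have hin : ∀ j : ℕ, 2 ≤ j → j < m → ∃ x, inc G U w x = e (j : ZMod m) := by
      intro j h2 hj
      have h3 : (e (j : ZMod m)).fst = c j := congrArg Prod.fst (he j)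
      have h4 : (e (j : ZMod m)).snd = c ((j : ZMod m) + 1) := congrArg Prod.snd (he j)
      refine mem_inc G U w ?_ ?_
      · rw [h3, ← hc1]
        intro h
        have h5 := hinj h
        refine cast_ne (m := m) (a := j) (b := 1) hj (by omega) (by omega) ?_
        rw [h5, Nat.cast_one]
      · rw [h4, ← hc1]
        intro h
        have h5 := hinj h
        refine cast_ne (m := m) (a := j) (b := 0) hj (by omega) (by omega) ?_
        rw [Nat.cast_zero]
        exact add_eq_right.1 h5
    have chain : ∀ n : ℕ, 2 + n < m → ∀ z, inc G U w z = e ((2 + n : ℕ) : ZMod m) →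
        R'.φ.SameCycle y z := by
      intro n
      induction n with
      | zero =>
        intro _ z hz
        have h1 : (((2 + 0 : ℕ)) : ZMod m) = 1 + 1 := by push_cast; norm_num
        rw [h1, he2, ← hy] at hz
        rw [inc_inj G U w hz]
      | succ n ih =>
        intro hn z hz
        obtain ⟨z', hz'⟩ := hin (2 + n) (by omega) (by omega)
        have h1 := ih (by omega) z' hz'
        have h2 : R'.φ z' = z := by
          apply hφ'
          rw [hz', hφe, hz]
          congr 1
          push_cast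
          ring
        rw [← h2]
        exact h1.trans ((sameCycle_apply_right).2 (SameCycle.refl _ _))
    obtain ⟨z, hz⟩ := hin (m - 1) (by omega) (by omega)
    have h1 : R'.φ.SameCycle y z := by
      refine chain (m - 3) (by omega) z ?_
      rw [hz]
      congr 2
      omega
    have h2 : R'.φ z = x := by
      rw [R'.φ_apply]
      obtain ⟨k, hk1, hk2⟩ := hk' z.symm
      have h3 : R.r (inc G U w z.symm) = δ.symm := by
        have h4 := hφe ((m - 1 : ℕ) : ZMod m)
        rw [← hz, R.φ_apply, inc_symm] at h4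
        rw [h4, ← he0]
        congr 1
        have h5 : ((m - 1 : ℕ) : ZMod m) + 1 = ((m - 1 + 1 : ℕ) : ZMod m) := by push_cast; ring
        rw [h5, Nat.sub_add_cancel (by omega), ZMod.natCast_self]
      have h4 : (R.r ^ 2) (inc G U w z.symm) = inc G U w x := by
        rw [pow_two, Perm.mul_apply, h3, hx]
      have hk0 : k ≠ 0 := by
        rintro rfl
        rw [zero_add, pow_one, h3] at hk1
        exact ne_inc G U w (e := δ.symm) hδ ⟨_, hk1⟩
      have hk3 : ¬ 1 < k := fun h => hk2 1 h ⟨x, h4.symm⟩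
      have hk4 : k = 1 := by omega
      rw [hk4] at hk1
      exact inc_inj G U w (hk1.trans h4)
    rw [← h2]
    exact (sameCycle_apply_right).2 h1
  -- all darts at `w`
  have h3w := K3 3 hK w hw
  obtain ⟨b₀, hb₀, hwb₀⟩ : {b | b ∈ U ∧ G.Adj w b}.Nonempty := by
    rw [Set.nonempty_iff_ne_empty]
    intro h
    rw [h, Set.ncard_empty] at h3w
    omega
  set δ₀ : (rst G U).Dart := ⟨(w, b₀), ⟨hwb₀, hw, hb₀⟩⟩ with hδ₀
  obtain ⟨x₀, hx₀⟩ := hex δ₀ rfl
  refine ⟨R', x₀, fun b hb hwb => ?_⟩
  have hpow : ∀ n : ℕ, ∀ x, inc G U w x = R.r ((R.r ^ n) δ₀).symm → R'.φ.SameCycle x₀ x := by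
    intro n
    induction n with
    | zero =>
      intro x hx
      have h1 : inc G U w x = inc G U w x₀ := hx.trans hx₀.symm
      rw [inc_inj G U w h1]
    | succ n ih =>
      intro x hx
      have hfst : ((R.r ^ n) δ₀).fst = w := R.map.t_pow δ₀ n
      obtain ⟨y, hy⟩ := hex ((R.r ^ n) δ₀) hfst
      have h1 := ih y hy
      rw [pow_succ', Perm.mul_apply] at hx
      exact h1.trans (step ((R.r ^ n) δ₀) hfst y x hy hx).symm
  obtain ⟨n, hn⟩ := (R.trans δ₀ ⟨(w, b), ⟨hwb, hw, hb⟩⟩ rfl).exists_nat_pow_eq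
  obtain ⟨x, hx⟩ := hex ⟨(w, b), ⟨hwb, hw, hb⟩⟩ rfl
  refine ⟨x, hpow n x (by rw [hn, hx]), ?_⟩
  rw [← inc_fst, hx]
  exact R.fst_r _

end Pool.Agent.Helper6.NK
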